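import Pool.Agent.V11237.LP.Quad

set_option autoImplicit false

/-!
# Sums of two almost twin primes for every large even number: asymptotics and the law after the primes

For every large even `N` and all signs `s, s' = ± 2` without obstruction modulo `3` (such signs exist):
in every interval of length at least `δ X` below `X ≥ N ^ θ` the number of the PRIMES `p` (in the class
of `3 + s` modulo `6`) for which `p + s`, `N - p`, `N - p + s'` have no prime factor `≤ N ^ (1 / r)` is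
asymptotically the expected one (up to a relative error `ε`, which tends to `0` as `r` grows), and after
these primes the next `m` with all four numbers `m`, `m + s`, `N - m`, `N - m + s'` free of prime factors
`≤ N ^ (1 / r)` come as in a Poisson process.
-/

namespace Pool.Agent.Results.MP_c6d112_nt.LawAfterPrimes

open Finset
open Pool.Agent.V11237.LP.Quad

/-- few prime factors -/
lemma few (r : ℕ) (hr : 1 ≤ r) : ∃ N₀ : ℕ, ∀ N : ℕ, N₀ ≤ N → ∀ z : ℤ, 0 ≤ z → z ≤ N + 2 →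
    (∀ p : ℕ, p.Prime → (p : ℝ) ≤ (N : ℝ) ^ (1 / (r : ℝ)) → ¬ (p : ℤ) ∣ z) →
    z.natAbs.primeFactorsList.length ≤ r := by
  obtain ⟨N0, h0⟩ := Pool.Agent.V11237.LP.few 1 2 one_pos r hr
  refine ⟨N0, ?_⟩
  intro N hN z hz hzN hg
  by_cases h2 : 2 ≤ z
  · obtain ⟨m, hm⟩ : ∃ m : ℕ, (m : ℤ) = z - 2 := ⟨(z - 2).toNat, by omega⟩
    have e : z = 1 * (m : ℤ) + 2 := by omega
    rw [e] at hg ⊢
    exact h0 N hN m (by omega) hg
  · have : z = 0 ∨ z = 1 := by omega
    rcases this with rfl | rfl <;> simp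

/-- **Sums of two almost twin primes: the primes among them and the law after them.** -/
theorem result (θ δ : ℝ) (hθ : 0 < θ) (hδ : 0 < δ) (hδ1 : δ ≤ 1) (x₀ ε : ℝ) (hε : 0 < ε)
    (hε1 : ε ≤ 1) :
    ∃ r₀ : ℕ, 2 ≤ r₀ ∧ ∀ r : ℕ, r₀ ≤ r → ∃ N₀ : ℕ, ∀ N : ℕ, N₀ ≤ N → Even N →
      (∃ s s' : ℤ, (s = 2 ∨ s = -2) ∧ (s' = 2 ∨ s' = -2) ∧ (6 : ℤ) ∣ N - s - s') ∧
      ∀ s s' : ℤ, (s = 2 ∨ s = -2) → (s' = 2 ∨ s' = -2) → (6 : ℤ) ∣ N - s - s' →
      (∀ m : ℤ, 2 ≤ m → m ≤ N - 2 → Good s s' N r m →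
        m.natAbs.primeFactorsList.length ≤ r ∧ (m + s).natAbs.primeFactorsList.length ≤ r ∧
        (N - m).natAbs.primeFactorsList.length ≤ r ∧
        (N - m + s').natAbs.primeFactorsList.length ≤ r) ∧
      0 < V s s' N r ∧
      ∀ X : ℕ, (N : ℝ) ^ θ ≤ X → ∀ u Y : ℕ, δ * X ≤ Y → u + Y ≤ X →
        |((P s s' N r u Y).card : ℝ) * Real.log X - Y * (V s s' N r / U N r)| ≤
          ε * (Y * (V s s' N r / U N r)) ∧
        ∀ T : ℕ, T * V s s' N r ≤ x₀ → ∀ S : Finset ℕ,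
        |(((P s s' N r u Y).filter (fun x => Next s s' N r T x ∈ S)).card : ℝ) -
          (P s s' N r u Y).card *
            ∑ j ∈ S, Real.exp (-(T * V s s' N r)) * (T * V s s' N r) ^ j / j.factorial| ≤
          ε * (P s s' N r u Y).card := by
  obtain ⟨r0, hr0, h0⟩ := law θ δ hθ hδ hδ1 x₀ ε hε hε1
  refine ⟨r0, hr0, ?_⟩
  intro r hr
  obtain ⟨N1, hN1⟩ := h0 r hr
  obtain ⟨N2, hN2⟩ := few r (by omega)
  refine ⟨max N1 N2, ?_⟩
  intro N hN hev
  refine ⟨?_, ?_⟩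
  · obtain ⟨c, hc⟩ := hev
    have h3 : c % 3 = 0 ∨ c % 3 = 1 ∨ c % 3 = 2 := by omega
    rcases h3 with h | h | h
    · exact ⟨2, -2, Or.inl rfl, Or.inr rfl, by omega⟩
    · exact ⟨-2, -2, Or.inr rfl, Or.inr rfl, by omega⟩
    · exact ⟨2, 2, Or.inl rfl, Or.inl rfl, by omega⟩
  · intro s s' hs hs' hf
    obtain ⟨g1, g2⟩ := hN1 N ((le_max_left _ _).trans hN) s s' hs hs' hf
    refine ⟨?_, g1, g2⟩
    intro m hm hmN hg
    have hN2' := hN2 N ((le_max_right _ _).trans hN)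
    refine ⟨hN2' _ (by omega) (by omega) (fun p hp hpz => (hg p hp hpz).1),
      hN2' _ (by omega) (by omega) (fun p hp hpz => (hg p hp hpz).2.1),
      hN2' _ (by omega) (by omega) (fun p hp hpz => (hg p hp hpz).2.2.1),
      hN2' _ (by omega) (by omega) (fun p hp hpz => (hg p hp hpz).2.2.2)⟩

end Pool.Agent.Results.MP_c6d112_nt.LawAfterPrimes
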