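import Pool.Agent.V11249.NP.Fix

/-!
# Arithmetic progressions in the set of the representations as sums of two twin primes

For all even `M`, consider the representations `M = p + q` with twin primes `p`, `q` (of the two kinds `p + s`,
`q + t` prime, `s, t = ± 2`; the kinds with `M ≡ s + t` modulo `3` are the possible ones). The number of these `p` in a window `(A, A + N]` has the
expected order of magnitude `N V` if and only if the number of their `k`-term arithmetic progressions with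
differences up to `D` has the expected order of magnitude `N D V ^ k`, for all `D` between a power of `log N` and
`N`; the constants depend only on `k`. The same holds for all sets of `p` at which the values have no
prime factor `≤ N ^ κ` (Szemerédi's theorem relative to these sets, and its converse).
-/

set_option autoImplicit false

open Finset Polynomial Pool.Agent.V11249.NP

namespace Pool.Agent.Results.MP_c6d112_nt.ProgressionsOfRepresentations

/-- the signs `s, t = ± 2` are compatible with the even number `M`: `M ≡ s + t` modulo `3` -/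
def Compatible (M : ℕ) (s t : ℤ) : Prop :=
  Even M ∧ (s = 2 ∨ s = -2) ∧ (t = 2 ∨ t = -2) ∧ (3 : ℤ) ∣ M - s - t

/-- `q` divides `p (p + s) (M - p) (M - p + t)` for the prime `q` -/
def Divides (M : ℕ) (s t : ℤ) (q p : ℕ) : Prop :=
  (q : ℤ) ∣ p ∨ (q : ℤ) ∣ p + s ∨ (q : ℤ) ∣ M - p ∨ (q : ℤ) ∣ M - p + t

open Classical in
/-- the number of the residues `p` modulo `q` with `q ∣ p (p + s) (M - p) (M - p + t)` -/
noncomputable def omega (M : ℕ) (s t : ℤ) (q : ℕ) : ℕ := ((range q).filter (fun m => Divides M s t q m)).card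

/-- the sieve product over the primes `q ≤ N ^ κ` -/
noncomputable def V (M : ℕ) (s t : ℤ) (κ : ℝ) (N : ℕ) : ℝ :=
  ∏ q ∈ (Icc 1 ⌊(N : ℝ) ^ κ⌋₊).filter Nat.Prime, (1 - (omega M s t q : ℝ) / q)

/-- the `p` in `(A, A + N]` such that `p`, `p + s`, `M - p`, `M - p + t` are primes (up to the sign): `p` and
`M - p` are twin primes, of the kinds given by the signs -/
def P (M : ℕ) (s t : ℤ) (A N : ℕ) : Finset ℕ :=
  (Ioc A (A + N)).filter (fun p : ℕ => p.Prime ∧ ((p : ℤ) + s).natAbs.Prime ∧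
    ((M : ℤ) - p).natAbs.Prime ∧ ((M : ℤ) - p + t).natAbs.Prime)

/-- all prime factors of `p (p + s) (M - p) (M - p + t)` are larger than `N ^ κ` -/
def Rough (M : ℕ) (s t : ℤ) (κ : ℝ) (N p : ℕ) : Prop :=
  ∀ q : ℕ, q.Prime → Divides M s t q p → (N : ℝ) ^ κ < q

open Classical in
/-- The number of the progressions `n, n + d, …, n + (k - 1) d` in `S` with `1 ≤ d ≤ D`. -/
noncomputable def AP (k D : ℕ) (S : Finset ℕ) : ℕ :=
  ((S ×ˢ Icc 1 D).filter (fun q => ∀ j < k, q.1 + j * q.2 ∈ S)).card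

/-- the system -/
noncomputable def F (M : ℕ) (s t : ℤ) : Fin 4 → ℤ[X] :=
  ![X, X + C s, C (M : ℤ) - X, C ((M : ℤ) + t) - X]

theorem ev0 (M : ℕ) (s t n : ℤ) : (F M s t 0).eval n = n := by simp [F]
theorem ev1 (M : ℕ) (s t n : ℤ) : (F M s t 1).eval n = n + s := by simp [F]
theorem ev2 (M : ℕ) (s t n : ℤ) : (F M s t 2).eval n = M - n := by simp [F]
theorem ev3 (M : ℕ) (s t n : ℤ) : (F M s t 3).eval n = M - n + t := by
  simp [F]
  ring

theorem div_iff (M : ℕ) (s t : ℤ) (q n : ℕ) :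
    (∃ i, (q : ℤ) ∣ (F M s t i).eval (n : ℤ)) ↔ Divides M s t q n := by
  unfold Divides
  constructor
  · rintro ⟨i, hi⟩
    fin_cases i
    · left
      have : (q : ℤ) ∣ (F M s t 0).eval (n : ℤ) := hi
      rwa [ev0] at this
    · right; left
      have : (q : ℤ) ∣ (F M s t 1).eval (n : ℤ) := hi
      rwa [ev1] at this
    · right; right; left
      have : (q : ℤ) ∣ (F M s t 2).eval (n : ℤ) := hi
      rwa [ev2] at this
    · right; right; right
      have : (q : ℤ) ∣ (F M s t 3).eval (n : ℤ) := hi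
      rwa [ev3] at this
  · rintro (h | h | h | h)
    · exact ⟨0, by rw [ev0]; exact h⟩
    · exact ⟨1, by rw [ev1]; exact h⟩
    · exact ⟨2, by rw [ev2]; exact h⟩
    · exact ⟨3, by rw [ev3]; exact h⟩

theorem ex (M : ℕ) (s t : ℤ) (h : Compatible M s t) (q : ℕ) (hq : q.Prime) : ∃ m : ℕ, ¬ Divides M s t q m := by
  classical
  obtain ⟨⟨r, hr⟩, hs, ht, h3⟩ := h
  unfold Divides
  by_cases h2 : q = 2
  · subst h2
    refine ⟨1, ?_⟩
    rcases hs with rfl | rfl <;> rcases ht with rfl | rfl <;> rintro (h | h | h | h) <;> push_cast at h <;> omega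
  by_cases h33 : q = 3
  · subst h33
    rcases hs with rfl | rfl
    · refine ⟨2, ?_⟩
      rcases ht with rfl | rfl <;> rintro (h | h | h | h) <;> push_cast at h <;> omega
    · refine ⟨1, ?_⟩
      rcases ht with rfl | rfl <;> rintro (h | h | h | h) <;> push_cast at h <;> omega
  have h5 : 5 ≤ q := by
    have h1 := hq.two_le
    by_contra hc
    have : q = 4 := by omega
    subst this
    exact absurd hq (by norm_num)
  have : Fact q.Prime := ⟨hq⟩
  have : NeZero q := ⟨hq.ne_zero⟩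
  set Z : Finset (ZMod q) := {0, ((-s : ℤ) : ZMod q), ((M : ℤ) : ZMod q), (((M : ℤ) + t : ℤ) : ZMod q)} with hZ
  have hc : Z.card < (univ : Finset (ZMod q)).card := by
    rw [card_univ, ZMod.card]
    have h4 : Z.card ≤ 4 := by
      rw [hZ]
      exact card_le_four
    omega
  obtain ⟨x, -, hx⟩ := exists_mem_notMem_of_card_lt_card hc
  refine ⟨x.val, ?_⟩
  have key : ∀ v : ℤ, (q : ℤ) ∣ v ↔ ((v : ℤ) : ZMod q) = 0 := fun v => (ZMod.intCast_zmod_eq_zero_iff_dvd v q).symm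
  have hx2 : (((x.val : ℕ) : ℤ) : ZMod q) = x := by simp
  rw [hZ] at hx
  simp only [mem_insert, mem_singleton, not_or] at hx
  obtain ⟨x1, x2, x3, x4⟩ := hx
  rw [key, key, key, key]
  push_cast at hx2 x1 x2 x3 x4 ⊢
  rw [hx2]
  rintro (h | h | h | h)
  · exact x1 h
  · exact x2 (eq_neg_of_add_eq_zero_left h)
  · exact x3 (sub_eq_zero.1 h).symm
  · apply x4
    linear_combination -h

theorem us {M : ℕ} {s t : ℤ} (h : Compatible M s t) : UniG.US 1 (F M s t) := by
  constructor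
  · intro i
    have e1 : ∀ c : ℤ, (C c - X : ℤ[X]).natDegree = 1 := by
      intro c
      rw [← neg_sub, natDegree_neg, natDegree_X_sub_C]
    fin_cases i
    · show 1 ≤ (X : ℤ[X]).natDegree ∧ (X : ℤ[X]).natDegree ≤ 1
      rw [natDegree_X]
      exact ⟨le_rfl, le_rfl⟩
    · show 1 ≤ (X + C s : ℤ[X]).natDegree ∧ (X + C s : ℤ[X]).natDegree ≤ 1
      rw [natDegree_X_add_C]
      exact ⟨le_rfl, le_rfl⟩
    · show 1 ≤ (C (M : ℤ) - X : ℤ[X]).natDegree ∧ (C (M : ℤ) - X : ℤ[X]).natDegree ≤ 1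
      rw [e1]
      exact ⟨le_rfl, le_rfl⟩
    · show 1 ≤ (C ((M : ℤ) + t) - X : ℤ[X]).natDegree ∧ (C ((M : ℤ) + t) - X : ℤ[X]).natDegree ≤ 1
      rw [e1]
      exact ⟨le_rfl, le_rfl⟩
  · intro p hp
    obtain ⟨m, hm⟩ := ex M s t h p hp
    exact ⟨m, fun i hi => hm ((div_iff M s t p m).1 ⟨i, hi⟩)⟩

theorem V_eq (M : ℕ) (s t : ℤ) (κ : ℝ) (N : ℕ) : V M s t κ N = UniG.V (F M s t) κ N := by
  classical
  unfold V
  refine UniG.V_eq (F M s t) κ N _ (fun p _ => ?_)
  unfold omega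
  congr 1
  ext x
  rw [UniG.mem_ZZ, mem_filter, mem_range, div_iff]

/-- For every `k ≥ 1`, with constants which do not depend on `M, s, t` nor on the window:
(1) for `κ > 0` a set `S` of integers `p` of `(A, A + N]` at which `p (p + s) (M - p) (M - p + t)` has no prime factor `≤ N ^ κ` contains at most
`C N D V ^ k` progressions of length `k` with differences at most `D`;
(2) it contains at least `c₀ N D V ^ k` of them if it has at least `δ N V` elements, and it has at least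
`c₀ N V` elements if it contains at least `δ N D V ^ k` of them, for all `D` between `log ^ B N` and `N`;
(3), (4) the same for the set `P` (with `κ = 1/4` in `V`). -/
theorem result (k : ℕ) (hk : 1 ≤ k) :
    (∀ κ : ℝ, 0 < κ → ∃ C : ℝ, 0 < C ∧ ∃ B N₀ : ℕ, ∀ (M : ℕ) (s t : ℤ), Compatible M s t → ∀ N A D : ℕ,
      N₀ ≤ N → Real.log N ^ B ≤ D → ∀ S : Finset ℕ, S ⊆ Ioc A (A + N) → (∀ p ∈ S, Rough M s t κ N p) →
        (AP k D S : ℝ) ≤ C * (N * D * V M s t κ N ^ k)) ∧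
    (∀ κ δ : ℝ, 0 < κ → 0 < δ → ∃ c₀ : ℝ, 0 < c₀ ∧ ∃ B N₀ : ℕ, ∀ (M : ℕ) (s t : ℤ), Compatible M s t → ∀ N A D : ℕ,
      N₀ ≤ N → Real.log N ^ B ≤ D → D ≤ N → ∀ S : Finset ℕ, S ⊆ Ioc A (A + N) →
        (∀ p ∈ S, Rough M s t κ N p) →
        (δ * (N * V M s t κ N) ≤ S.card → c₀ * (N * D * V M s t κ N ^ k) ≤ AP k D S) ∧
        (δ * (N * D * V M s t κ N ^ k) ≤ AP k D S → c₀ * (N * V M s t κ N) ≤ S.card)) ∧
    (∃ C : ℝ, 0 < C ∧ ∃ B N₀ : ℕ, ∀ (M : ℕ) (s t : ℤ), Compatible M s t → ∀ N A D : ℕ, N₀ ≤ N →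
      Real.log N ^ B ≤ D → (AP k D (P M s t A N) : ℝ) ≤ C * (N * D * V M s t (1 / 4) N ^ k)) ∧
    (∀ δ : ℝ, 0 < δ → ∃ c₀ : ℝ, 0 < c₀ ∧ ∃ B N₀ : ℕ, ∀ (M : ℕ) (s t : ℤ), Compatible M s t → ∀ N A D : ℕ, N₀ ≤ N →
      Real.log N ^ B ≤ D → D ≤ N →
      (δ * (N * V M s t (1 / 4) N) ≤ (P M s t A N).card →
        c₀ * (N * D * V M s t (1 / 4) N ^ k) ≤ AP k D (P M s t A N)) ∧
      (δ * (N * D * V M s t (1 / 4) N ^ k) ≤ AP k D (P M s t A N) →
        c₀ * (N * V M s t (1 / 4) N) ≤ (P M s t A N).card)) := by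
  obtain ⟨a1, a2, a3, a4⟩ := UniG.transfer 4 1 (fun q : ℕ × ℤ × ℤ => F q.1 q.2.1 q.2.2)
    (fun q => Compatible q.1 q.2.1 q.2.2) (fun q hq => us hq) (fun q => Rough q.1 q.2.1 q.2.2)
    (fun q => P q.1 q.2.1 q.2.2) (fun q => V q.1 q.2.1 q.2.2)
    (fun q _ κ N n hr i p hp hd => hr p hp ((div_iff q.1 q.2.1 q.2.2 p n).1 ⟨i, hd⟩))
    (fun q _ A N n => by
      unfold P
      rw [mem_filter, mem_Ioc]
      constructor
      · rintro ⟨h, h0, h1, h2, h3⟩
        refine ⟨h, fun i => ?_⟩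
        fin_cases i
        · show ((F q.1 q.2.1 q.2.2 0).eval (n : ℤ)).natAbs.Prime
          rwa [ev0, Int.natAbs_natCast]
        · show ((F q.1 q.2.1 q.2.2 1).eval (n : ℤ)).natAbs.Prime
          rwa [ev1]
        · show ((F q.1 q.2.1 q.2.2 2).eval (n : ℤ)).natAbs.Prime
          rwa [ev2]
        · show ((F q.1 q.2.1 q.2.2 3).eval (n : ℤ)).natAbs.Prime
          rwa [ev3]
      · rintro ⟨h, hi⟩
        have g0 := hi 0
        have g1 := hi 1
        have g2 := hi 2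
        have g3 := hi 3
        rw [ev0, Int.natAbs_natCast] at g0
        rw [ev1] at g1
        rw [ev2] at g2
        rw [ev3] at g3
        exact ⟨h, g0, g1, g2, g3⟩)
    (fun q _ κ N => V_eq q.1 q.2.1 q.2.2 κ N) k hk
  refine ⟨?_, ?_, ?_, ?_⟩
  · intro κ hκ
    obtain ⟨C, hC, B, N₀, h⟩ := a1 κ hκ
    exact ⟨C, hC, B, N₀, fun M s t => h (M, s, t)⟩
  · intro κ δ hκ hδ
    obtain ⟨C, hC, B, N₀, h⟩ := a2 κ δ hκ hδ
    exact ⟨C, hC, B, N₀, fun M s t => h (M, s, t)⟩
  · obtain ⟨C, hC, B, N₀, h⟩ := a3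
    exact ⟨C, hC, B, N₀, fun M s t => h (M, s, t)⟩
  · intro δ hδ
    obtain ⟨C, hC, B, N₀, h⟩ := a4 δ hδ
    exact ⟨C, hC, B, N₀, fun M s t => h (M, s, t)⟩

end Pool.Agent.Results.MP_c6d112_nt.ProgressionsOfRepresentations
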