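import Pool.Agent.H225.VL

/-!
# Sums of two twin primes, one of them with restricted digits

Let `b ≥ 2` be a base and let the digits of a number `t < b^K` be restricted: the `i`-th digit belongs
to a set `A i`, where the sets `A i` are arbitrary, depend on the place `i < K`, and have the only
property that the number `∏ |A i|` of these integers `t` is at least `e^{-δK} b^K`, where the constant
`δ > 0` does not depend on `b`.  (For example one digit may be excluded at every place if `b` is large;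
or a positive proportion of the digits may be fixed.)  Let `N` be an even number between `b^K + 3` and an
arbitrary fixed power of `b^K`.  For every such `N` there are signs such that there is no local
obstruction to `t`, `t ± 2`, `N - t`, `N - t ± 2` being prime, and for such signs the number of these `t`
for which all four numbers are prime (so that `t` and `N - t` are twin primes with the sum `N`) should
have the order of magnitude `V ∏ |A i|` (if the last digit can be chosen such that the four numbers are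
prime to `b`), where `V` is the product over the primes `q ≤ b^K` of `1 - ρ(q) / q` and `ρ(q)` is the
number of the forbidden residue classes of `t` modulo `q`; here `V ≥ κ / K^4`.

We show that this is an upper bound, and a lower bound for the number of the `t` for which the four
numbers have at most `r` prime factors each, all of them larger than `b^{K/r}`, uniformly in `N` and in
the sets of digits.

The method is a Brun–Hooley sieve with weights, whose level of distribution is obtained from the Fourier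
transform of the set of the integers with restricted digits at rationals (large sieve in blocks of
digits), see `Pool/Agent/Y816/PD`.
-/

set_option autoImplicit false

namespace Pool.Agent.Results.MP_c6d112_nt.RestrictedDigits

open Finset Filter

open Classical in
/-- The number of the `t < b ^ K` in `T` whose `i`-th digit in base `b` belongs to `A i` for all
`i < K`. -/
noncomputable def count (b K : ℕ) (A : ℕ → Finset ℕ) (T : Set ℕ) : ℕ :=
  ((range (b ^ K)).filter (fun t => (∀ i < K, t / b ^ i % b ∈ A i) ∧ t ∈ T)).card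

/-- The number of choices of the digits. -/
noncomputable def choices (K : ℕ) (A : ℕ → Finset ℕ) : ℝ := ∏ i ∈ range K, ((A i).card : ℝ)

/-- `m` is positive, has at most `r` prime factors, counted with multiplicity, and all of them are larger
than `z ^ (1 / r)`. -/
def AlmostPrime (r z : ℕ) (m : ℤ) : Prop :=
  0 < m ∧ (∀ p : ℕ, p.Prime → p ∣ m.natAbs → z < p ^ r) ∧ m.natAbs.primeFactorsList.length ≤ r

/-- `m` is a positive prime. -/
def IsPrime (m : ℤ) : Prop := 0 < m ∧ m.natAbs.Prime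

/-- The four numbers `t`, `t + s₁`, `N - t`, `N - t + s₂`. -/
def num (N s₁ s₂ : ℤ) (t : ℕ) : Fin 4 → ℤ := ![(t : ℤ), t + s₁, N - t, N - t + s₂]

/-- The number of the residue classes modulo `q` of `0`, `-s₁`, `N`, `N + s₂`. -/
def rho (N s₁ s₂ : ℤ) (q : ℕ) : ℕ := (({0, -s₁, N, N + s₂} : Finset ℤ).image (fun h : ℤ => h % q)).card

/-- The signs fit to `N`: both are `2` or `-2`, and there is no obstruction modulo `3` for the four
numbers. -/
def Fit (N s₁ s₂ : ℤ) : Prop := (s₁ = 2 ∨ s₁ = -2) ∧ (s₂ = 2 ∨ s₂ = -2) ∧ rho N s₁ s₂ 3 < 3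

/-- The product of `1 - rho q / q` over the primes `q ≤ x`. -/
noncomputable def V (N s₁ s₂ : ℤ) (x : ℕ) : ℝ :=
  ∏ q ∈ (Icc 1 x).filter Nat.Prime, (1 - (rho N s₁ s₂ q : ℝ) / q)

/-- Some signs fit. -/
theorem fit_exists (N : ℤ) : ∃ s₁ s₂ : ℤ, Fit N s₁ s₂ := by
  have h3 : N % 3 = 0 ∨ N % 3 = 1 ∨ N % 3 = 2 := by omega
  have key : ∀ s₁ s₂ a b c : ℤ, (-s₁) % 3 = a → N % 3 = b → (N + s₂) % 3 = c →
      (({0, a, b, c} : Finset ℤ)).card < 3 → rho N s₁ s₂ 3 < 3 := by
    intro s₁ s₂ a b c ha hb hc hcard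
    have e : (({0, -s₁, N, N + s₂} : Finset ℤ).image (fun h : ℤ => h % ((3 : ℕ) : ℤ))) =
        {0, a, b, c} := by
      rw [image_insert, image_insert, image_insert, image_singleton]
      push_cast
      rw [ha, hb, hc]
    unfold rho
    rw [e]
    exact hcard
  rcases h3 with h | h | h
  · exact ⟨2, -2, Or.inl rfl, Or.inr rfl, key 2 (-2) 1 0 1 (by norm_num) h (by omega) (by decide)⟩
  · exact ⟨2, 2, Or.inl rfl, Or.inl rfl, key 2 2 1 1 0 (by norm_num) h (by omega) (by decide)⟩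
  · exact ⟨-2, -2, Or.inr rfl, Or.inr rfl, key (-2) (-2) 2 2 0 (by norm_num) h (by omega) (by decide)⟩

open Pool.Agent.Y816.PD (WG NA ND ND_sub)

lemma dvd_iff (N s₁ s₂ : ℤ) (t : ℕ) {q : ℕ} (hq : q.Prime) :
    (q : ℤ) ∣ ∏ i, num N s₁ s₂ t i ↔ ∃ h ∈ ({0, -s₁, N, N + s₂} : Finset ℤ), (q : ℤ) ∣ t - h := by
  rw [Pool.Agent.H225.DG.dvd_prod_iff (num N s₁ s₂ t) hq]
  have e0 : num N s₁ s₂ t 0 = t - 0 := by simp [num]
  have e1 : num N s₁ s₂ t 1 = t - (-s₁) := by simp [num]
  have e2 : num N s₁ s₂ t 2 = -(t - N) := by simp [num]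
  have e3 : num N s₁ s₂ t 3 = -(t - (N + s₂)) := by
    simp [num]
    ring
  constructor
  · rintro ⟨i, hi⟩
    fin_cases i
    · exact ⟨0, by simp, e0 ▸ hi⟩
    · exact ⟨-s₁, by simp, e1 ▸ hi⟩
    · refine ⟨N, by simp, ?_⟩
      have h1 : (q : ℤ) ∣ num N s₁ s₂ t 2 := hi
      rw [e2, Int.dvd_neg] at h1
      exact h1
    · refine ⟨N + s₂, by simp, ?_⟩
      have h1 : (q : ℤ) ∣ num N s₁ s₂ t 3 := hi
      rw [e3, Int.dvd_neg] at h1
      exact h1
  · rintro ⟨h, hh, hd⟩
    simp only [mem_insert, mem_singleton] at hh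
    rcases hh with rfl | rfl | rfl | rfl
    · exact ⟨0, by rw [e0]; exact hd⟩
    · exact ⟨1, by rw [e1]; exact hd⟩
    · exact ⟨2, by rw [e2, Int.dvd_neg]; exact hd⟩
    · exact ⟨3, by rw [e3, Int.dvd_neg]; exact hd⟩

open Classical in
lemma card_eq (N s₁ s₂ : ℤ) {q : ℕ} (hq : q.Prime) :
    ((range q).filter (fun t : ℕ => (q : ℤ) ∣ ∏ i, num N s₁ s₂ t i)).card = rho N s₁ s₂ q := by
  have hq0 : (0 : ℤ) < q := by exact_mod_cast hq.pos
  unfold rho
  rw [← card_image_of_injective _ (Nat.cast_injective (R := ℤ))]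
  congr 1
  ext z
  simp only [mem_image, mem_filter, mem_range, dvd_iff N s₁ s₂ _ hq]
  constructor
  · rintro ⟨t, ⟨ht, h, hh, hd⟩, rfl⟩
    refine ⟨h, hh, ?_⟩
    have h1 : (t : ℤ) % q = h % q := (Int.emod_emod_of_dvd _ (dvd_refl _)).symm.trans
      (by rw [Int.emod_emod_of_dvd _ (dvd_refl _)]; exact Int.emod_eq_emod_iff_emod_sub_eq_zero.2
            (Int.emod_eq_zero_of_dvd hd))
    rw [← h1]
    exact Int.emod_eq_of_lt (by positivity) (by exact_mod_cast ht)
  · rintro ⟨h, hh, rfl⟩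
    have h1 : 0 ≤ h % q := Int.emod_nonneg _ hq0.ne'
    have h2 : h % q < q := Int.emod_lt_of_pos _ hq0
    refine ⟨(h % q).toNat, ⟨by omega, h, hh, ?_⟩, Int.toNat_of_nonneg h1⟩
    rw [Int.toNat_of_nonneg h1]
    have h3 : (q : ℤ) ∣ h - h % q := Int.dvd_self_sub_emod
    rw [← Int.dvd_neg]
    have e : -(h % q - h) = h - h % q := by ring
    rw [e]
    exact h3

lemma rho_le (N s₁ s₂ : ℤ) (q : ℕ) : rho N s₁ s₂ q ≤ 4 := by
  unfold rho
  refine card_image_le.trans ?_
  exact (card_insert_le _ _).trans (Nat.succ_le_succ ((card_insert_le _ _).trans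
    (Nat.succ_le_succ ((card_insert_le _ _).trans (Nat.succ_le_succ (card_singleton _).le)))))

lemma rho_lt {N s₁ s₂ : ℤ} (hN : Even N) (h : Fit N s₁ s₂) {q : ℕ} (hq : q.Prime) :
    rho N s₁ s₂ q < q := by
  obtain ⟨h1, h2, h3⟩ := h
  by_cases h5 : 5 ≤ q
  · have := rho_le N s₁ s₂ q
    omega
  · have hq2 := hq.two_le
    have hq23 : q = 2 ∨ q = 3 := by
      interval_cases q
      · exact Or.inl rfl
      · exact Or.inr rfl
      · exact absurd hq (by norm_num)
    rcases hq23 with rfl | rfl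
    · have e : (({0, -s₁, N, N + s₂} : Finset ℤ).image (fun h : ℤ => h % ((2 : ℕ) : ℤ))) ⊆ {0} := by
        intro z hz
        rw [mem_image] at hz
        obtain ⟨h, hh, rfl⟩ := hz
        rw [mem_singleton]
        obtain ⟨c, hc⟩ := hN
        simp only [mem_insert, mem_singleton] at hh
        push_cast
        rcases hh with rfl | rfl | rfl | rfl
        · rfl
        · rcases h1 with rfl | rfl <;> norm_num
        · omega
        · rcases h2 with rfl | rfl <;> omega
      unfold rho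
      have := card_le_card e
      rw [card_singleton] at this
      omega
    · exact h3

/-- **Sums of two twin primes, one of them with restricted digits.** -/
theorem result (D : ℕ) :
    ∃ δ : ℝ, 0 < δ ∧ ∃ r₀ : ℕ, 2 ≤ r₀ ∧ ∀ r : ℕ, r₀ ≤ r → ∀ b : ℕ, 2 ≤ b →
      ∃ κ C : ℝ, 0 < κ ∧ 0 < C ∧
      ∀ᶠ K : ℕ in atTop, ∀ N : ℕ, Even N → b ^ K + 3 ≤ N → N ≤ b ^ (D * K) →
        (∃ s₁ s₂ : ℤ, Fit N s₁ s₂) ∧
        ∀ s₁ s₂ : ℤ, Fit N s₁ s₂ →
        κ / (K : ℝ) ^ 4 ≤ V N s₁ s₂ (b ^ K) ∧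
        ∀ A : ℕ → Finset ℕ, (∀ i < K, A i ⊆ range b) →
        (b : ℝ) ^ K ≤ Real.exp (δ * K) * choices K A →
        ((∃ d ∈ A 0, ∀ i, (num N s₁ s₂ d i).natAbs.Coprime b) → (∃ d ∈ A (K - 1), d ≠ 0) →
          κ * choices K A * V N s₁ s₂ (b ^ K) ≤ count b K A {t | b ^ (K - 1) ≤ t ∧
            ∀ i, AlmostPrime r (b ^ K) (num N s₁ s₂ t i)}) ∧
        (count b K A {t | (∀ i, IsPrime (num N s₁ s₂ t i)) ∧ (t : ℤ) < ((N : ℤ) - t - 2) ^ 2} : ℝ) ≤
          C * choices K A * V N s₁ s₂ (b ^ K) := by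
  classical
  obtain ⟨δ, hδ, r₀, hr₀, h⟩ := Pool.Agent.H225.DG.gen 4 1 (D + 2) (by norm_num) le_rfl
  refine ⟨δ, hδ, r₀ + 1, by omega, fun r hr b hb => ?_⟩
  obtain ⟨κ, C, hκ, hC, h1⟩ := h r (by omega) b hb
  obtain ⟨v, hv, hW⟩ := Pool.Agent.H225.VL.lower 4 b (by norm_num) hb
  refine ⟨min κ v, C, lt_min hκ hv, hC, ?_⟩
  filter_upwards [h1, hW, eventually_ge_atTop 4] with K hK hWK hK1 N hN hbN hNb
  have hNZ : Even (N : ℤ) := by exact_mod_cast hN
  refine ⟨fit_exists N, fun s₁ s₂ hfit => ?_⟩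
  have hbK : 8 ≤ b ^ K := by
    calc 8 ≤ 2 ^ 4 := by norm_num
      _ ≤ 2 ^ K := Nat.pow_le_pow_right (by norm_num) hK1
      _ ≤ b ^ K := Nat.pow_le_pow_left hb K
  have hbK1 : 8 ≤ b ^ (K - 1) := by
    calc 8 = 2 ^ 3 := by norm_num
      _ ≤ 2 ^ (K - 1) := Nat.pow_le_pow_right (by norm_num) (by omega)
      _ ≤ b ^ (K - 1) := Nat.pow_le_pow_left hb _
  have hs1 : -2 ≤ s₁ ∧ s₁ ≤ 2 := by rcases hfit.1 with rfl | rfl <;> norm_num
  have hs2 : -2 ≤ s₂ ∧ s₂ ≤ 2 := by rcases hfit.2.1 with rfl | rfl <;> norm_num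
  have hWV : WG (fun t => ∏ i, num N s₁ s₂ t i) (b ^ K) = V N s₁ s₂ (b ^ K) := by
    unfold WG V
    refine prod_congr rfl fun q hq => ?_
    have hqq := (mem_filter.1 hq).2
    rw [← card_eq (N : ℤ) s₁ s₂ hqq]
  have hVlow : v / (K : ℝ) ^ 4 ≤ V N s₁ s₂ (b ^ K) := by
    rw [← hWV]
    refine hWK _ (fun p hp => ?_) (fun p hp => ?_)
    · have h5 := rho_le (N : ℤ) s₁ s₂ p
      rw [← card_eq (N : ℤ) s₁ s₂ hp] at h5
      convert h5
    · have h5 := rho_lt hNZ hfit hp
      rw [← card_eq (N : ℤ) s₁ s₂ hp] at h5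
      convert h5
  have hK0 : (0 : ℝ) < K := by exact_mod_cast (by omega : 0 < K)
  refine ⟨(div_le_div_of_nonneg_right (min_le_right _ _) (by positivity)).trans hVlow,
    fun A hA hprod => ?_⟩
  obtain ⟨F, hF⟩ : ∃ F : Fin 4 → ℕ → ℤ, F = fun i t => num N s₁ s₂ t i := ⟨_, rfl⟩
  have e0 : ∀ t, F 0 t = (t : ℤ) := fun t => by rw [hF]; rfl
  have e1 : ∀ t, F 1 t = (t : ℤ) + s₁ := fun t => by rw [hF]; rfl
  have e2 : ∀ t, F 2 t = (N : ℤ) - t := fun t => by rw [hF]; rfl
  have e3 : ∀ t, F 3 t = (N : ℤ) - t + s₂ := fun t => by rw [hF]; rfl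
  have hpoly : ∀ i, ∃ P : Polynomial ℤ, P.natDegree ≤ 1 ∧ ∀ n : ℕ, P.eval (n : ℤ) = F i n := by
    have key : ∀ u w : ℤ, ∃ P : Polynomial ℤ, P.natDegree ≤ 1 ∧
        ∀ n : ℕ, P.eval (n : ℤ) = u + w * n := fun u w =>
      ⟨Polynomial.C w * Polynomial.X + Polynomial.C u, Polynomial.natDegree_linear_le,
        fun n => by simp [add_comm]⟩
    intro i
    fin_cases i
    · obtain ⟨P, hP1, hP2⟩ := key 0 1
      exact ⟨P, hP1, fun n => (hP2 n).trans (by rw [zero_add, one_mul]; exact (e0 n).symm)⟩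
    · obtain ⟨P, hP1, hP2⟩ := key s₁ 1
      exact ⟨P, hP1, fun n => (hP2 n).trans (by rw [one_mul, add_comm]; exact (e1 n).symm)⟩
    · obtain ⟨P, hP1, hP2⟩ := key N (-1)
      exact ⟨P, hP1, fun n => (hP2 n).trans (by
        change (N : ℤ) + -1 * n = F 2 n
        rw [e2]
        ring)⟩
    · obtain ⟨P, hP1, hP2⟩ := key (N + s₂) (-1)
      exact ⟨P, hP1, fun n => (hP2 n).trans (by
        change (N : ℤ) + s₂ + -1 * n = F 3 n
        rw [e3]
        ring)⟩
  have hprodF : (fun t => ∏ i, F i t) = fun t => ∏ i, num N s₁ s₂ t i := by rw [hF]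
  have hadm : ∀ p : ℕ, p.Prime → ∃ n : ℕ, ∀ i, ¬ (p : ℤ) ∣ F i n := by
    intro p hp
    by_contra hcon
    push Not at hcon
    have hall : (range p).filter (fun t : ℕ => (p : ℤ) ∣ ∏ i, num N s₁ s₂ t i) = range p :=
      filter_true_of_mem fun t _ => by
        obtain ⟨i, hi⟩ := hcon t
        rw [hF] at hi
        exact hi.trans (dvd_prod_of_mem (fun i => num N s₁ s₂ t i) (mem_univ i))
    have h5 := rho_lt hNZ hfit hp
    rw [← card_eq (N : ℤ) s₁ s₂ hp, hall, card_range] at h5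
    exact lt_irrefl _ h5
  have hsize : ∀ n : ℕ, n < b ^ K → ∀ i, (F i n).natAbs ≤ b ^ ((D + 2) * K) := by
    intro n hn i
    have e : b ^ ((D + 2) * K) = b ^ (D * K) * b ^ K * b ^ K := by
      rw [← pow_add, ← pow_add]
      congr 1
      ring
    have h4 : N ≤ b ^ (D * K) * b ^ K := hNb.trans (Nat.le_mul_of_pos_right _ (by omega))
    have h6 : b ^ (D * K) * b ^ K * 2 ≤ b ^ (D * K) * b ^ K * b ^ K :=
      Nat.mul_le_mul_left _ (by omega)
    rw [e]
    generalize b ^ (D * K) * b ^ K * b ^ K = M at h6 ⊢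
    fin_cases i
    · change (F 0 n).natAbs ≤ _
      rw [e0]
      omega
    · change (F 1 n).natAbs ≤ _
      rw [e1]
      omega
    · change (F 2 n).natAbs ≤ _
      rw [e2]
      omega
    · change (F 3 n).natAbs ≤ _
      rw [e3]
      omega
  obtain ⟨h2, h3⟩ := hK F hpoly hadm hsize A hA hprod
  rw [hprodF, hWV] at h2 h3
  have hNA : 0 ≤ choices K A := by
    unfold choices
    exact prod_nonneg fun i _ => Nat.cast_nonneg _
  have hV0 : 0 ≤ V N s₁ s₂ (b ^ K) := le_trans (by positivity) hVlow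
  constructor
  · rintro ⟨d, hd, hcop⟩ htop
    refine le_trans ?_ ((h2 ⟨d, hd, fun i => ?_⟩ htop).trans (Nat.cast_le.2 ?_))
    · exact mul_le_mul_of_nonneg_right (mul_le_mul_of_nonneg_right (min_le_left _ _) hNA) hV0
    · rw [hF]
      exact hcop i
    · refine ND_sub fun n hn0 hn1 hn2 => ⟨hn1, hn2.1, fun i => ⟨?_, ?_⟩⟩
      · have h7 : b ^ (K - 1) ≤ n := hn2.1
        have e : num N s₁ s₂ n i = F i n := by rw [hF]
        rw [e]
        fin_cases i
        · change 0 < F 0 n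
          rw [e0]
          omega
        · change 0 < F 1 n
          rw [e1]
          omega
        · change 0 < F 2 n
          rw [e2]
          omega
        · change 0 < F 3 n
          rw [e3]
          omega
      · have := hn2.2 i
        rw [hF] at this
        exact this
  · refine le_trans (Nat.cast_le.2 ?_) h3
    refine ND_sub fun n hn0 hn1 hn2 => ⟨hn1, fun i => ?_⟩
    obtain ⟨hn3, hn4⟩ := hn2
    have hp : (F i n).natAbs.Prime ∧ 0 < F i n := by
      rw [hF]
      exact ⟨(hn3 i).2, (hn3 i).1⟩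
    refine ⟨hp.1, ?_⟩
    -- `n < |F i n| ^ r`
    have hr2 : (F i n).natAbs ^ 3 ≤ (F i n).natAbs ^ r := Nat.pow_le_pow_right hp.1.pos (by omega)
    refine lt_of_lt_of_le ?_ hr2
    have h7 : 2 ≤ (F i n) := by
      have := hp.1.two_le
      have := hp.2
      omega
    have hcube : 4 * (F i n) ≤ (F i n) ^ 3 := by
      have e : (F i n) ^ 3 - 4 * F i n = F i n * (F i n - 2) * (F i n + 2) := by ring
      have : 0 ≤ F i n * (F i n - 2) * (F i n + 2) :=
        mul_nonneg (mul_nonneg (by linarith) (by linarith)) (by linarith)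
      linarith
    have hsq : (F i n) ^ 2 ≤ (F i n) ^ 3 := pow_le_pow_right₀ (by linarith) (by norm_num)
    have h5 : (n : ℤ) < (F i n) ^ 3 := by
      fin_cases i
      · change (n : ℤ) < (F 0 n) ^ 3
        change 2 ≤ F 0 n at h7
        change 4 * F 0 n ≤ (F 0 n) ^ 3 at hcube
        rw [e0] at h7 hcube ⊢
        linarith
      · change (n : ℤ) < (F 1 n) ^ 3
        change 2 ≤ F 1 n at h7
        change 4 * F 1 n ≤ (F 1 n) ^ 3 at hcube
        rw [e1] at h7 hcube ⊢
        linarith [hs1.1]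
      · change (F 2 n) ^ 2 ≤ (F 2 n) ^ 3 at hsq
        change (n : ℤ) < (F 2 n) ^ 3
        rw [e2] at hsq ⊢
        have h8 : (n : ℤ) < b ^ K := by exact_mod_cast hn0
        have h9 : ((b ^ K : ℕ) : ℤ) + 3 ≤ N := by exact_mod_cast hbN
        push_cast at h9
        have h10 : (1 : ℤ) ≤ N - n - 2 := by linarith
        nlinarith
      · change (F 3 n) ^ 2 ≤ (F 3 n) ^ 3 at hsq
        change (n : ℤ) < (F 3 n) ^ 3
        rw [e3] at hsq ⊢
        have h8 : (n : ℤ) < b ^ K := by exact_mod_cast hn0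
        have h9 : ((b ^ K : ℕ) : ℤ) + 3 ≤ N := by exact_mod_cast hbN
        push_cast at h9
        have h10 : (1 : ℤ) ≤ N - n - 2 := by linarith
        have h11 : (N : ℤ) - n - 2 ≤ N - n + s₂ := by linarith [hs2.1]
        nlinarith
    have h6 : ((n : ℕ) : ℤ) < (((F i n).natAbs ^ 3 : ℕ) : ℤ) := by
      push_cast
      rw [abs_of_pos hp.2]
      exact h5
    exact_mod_cast h6

end Pool.Agent.Results.MP_c6d112_nt.RestrictedDigits
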